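import Mathlib

/-!
# A simple infinite-dimensional noncommutative Jordan algebra with `([x, y], y, y) = 0`

Let `K` be a field of characteristic different from two. The colour algebra over `K` is `K ⊕ K³ ⊕ K³` with the product

  `(s, a, b) (t, c, d) = (s t - a·d - b·c, s c + t a + 2 b × d, s d + t b + a × c)`.

It is a noncommutative Jordan algebra of dimension seven over `K`, simple as a ring, and satisfies the identity
`([x, y], y, y) = 0`; it is neither alternative nor commutative. Regarded as an algebra over a subfield `F` of `K` with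
`[K : F] = ∞` it is infinite-dimensional over its ground field `F`.
-/

set_option autoImplicit false

namespace Pool.Agent.Results.MP_52e257_al.ColourAlgebra

section Defs

variable {F A : Type} [Field F] [AddCommGroup A] [Module F A]

/-- The associator `(x, y, z) = (x y) z - x (y z)` of the product `m`. -/
def assoc (m : A →ₗ[F] A →ₗ[F] A) (x y z : A) : A := m (m x y) z - m x (m y z)

/-- The commutator `[x, y] = x y - y x`. -/
def comm (m : A →ₗ[F] A →ₗ[F] A) (x y : A) : A := m x y - m y x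

/-- `(A, m)` is a noncommutative Jordan algebra. -/
def IsNoncommutativeJordan (m : A →ₗ[F] A →ₗ[F] A) : Prop :=
  (∀ x y, assoc m x y x = 0) ∧ ∀ x y, assoc m (m x x) y x = 0

/-- `(A, m)` is an alternative algebra. -/
def IsAlternative (m : A →ₗ[F] A →ₗ[F] A) : Prop :=
  ∀ x y, assoc m x x y = 0 ∧ assoc m y x x = 0

/-- `(A, m)` is a Jordan algebra. -/
def IsJordan (m : A →ₗ[F] A →ₗ[F] A) : Prop :=
  (∀ x y, m x y = m y x) ∧ ∀ x y, assoc m (m x x) y x = 0

/-- `(A, m)` is simple: `A² ≠ 0`, and the only two-sided ideals are `0` and `A`. -/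
def IsSimple (m : A →ₗ[F] A →ₗ[F] A) : Prop :=
  (∃ x y, m x y ≠ 0) ∧ ∀ I : Submodule F A, (∀ x ∈ I, ∀ y, m x y ∈ I ∧ m y x ∈ I) → I = ⊥ ∨ I = ⊤

/-- `(A, m)` is a simple noncommutative Jordan algebra with `([x, y], y, y) = 0`, neither alternative nor Jordan. -/
structure HasProperties (m : A →ₗ[F] A →ₗ[F] A) : Prop where
  noncommutativeJordan : IsNoncommutativeJordan m
  identity : ∀ x y, assoc m (comm m x y) y y = 0
  simple : IsSimple m
  notAlternative : ¬ IsAlternative m
  notJordan : ¬ IsJordan m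

end Defs

section Colour

/-- The space of the colour algebra. -/
abbrev Col (K : Type) := K × (Fin 3 → K) × (Fin 3 → K)

variable {K : Type} [Field K]

open Matrix in
/-- The product of the colour algebra. -/
def cmul (x y : Col K) : Col K :=
  (x.1 * y.1 - x.2.1 ⬝ᵥ y.2.2 - x.2.2 ⬝ᵥ y.2.1,
    x.1 • y.2.1 + y.1 • x.2.1 + (2 : K) • crossProduct x.2.2 y.2.2,
    x.1 • y.2.2 + y.1 • x.2.2 + crossProduct x.2.1 y.2.1)

/-- The product in coordinates. -/
def cmul' (x y : Col K) : Col K :=
  (x.1 * y.1 - (x.2.1 0 * y.2.2 0 + x.2.1 1 * y.2.2 1 + x.2.1 2 * y.2.2 2) -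
      (x.2.2 0 * y.2.1 0 + x.2.2 1 * y.2.1 1 + x.2.2 2 * y.2.1 2),
    ![x.1 * y.2.1 0 + y.1 * x.2.1 0 + 2 * (x.2.2 1 * y.2.2 2 - x.2.2 2 * y.2.2 1),
      x.1 * y.2.1 1 + y.1 * x.2.1 1 + 2 * (x.2.2 2 * y.2.2 0 - x.2.2 0 * y.2.2 2),
      x.1 * y.2.1 2 + y.1 * x.2.1 2 + 2 * (x.2.2 0 * y.2.2 1 - x.2.2 1 * y.2.2 0)],
    ![x.1 * y.2.2 0 + y.1 * x.2.2 0 + (x.2.1 1 * y.2.1 2 - x.2.1 2 * y.2.1 1),
      x.1 * y.2.2 1 + y.1 * x.2.2 1 + (x.2.1 2 * y.2.1 0 - x.2.1 0 * y.2.1 2),
      x.1 * y.2.2 2 + y.1 * x.2.2 2 + (x.2.1 0 * y.2.1 1 - x.2.1 1 * y.2.1 0)])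

omit [Field K] in
lemma col_ext {x y : Col K} (h0 : x.1 = y.1) (h1 : x.2.1 0 = y.2.1 0) (h2 : x.2.1 1 = y.2.1 1)
    (h3 : x.2.1 2 = y.2.1 2) (h4 : x.2.2 0 = y.2.2 0) (h5 : x.2.2 1 = y.2.2 1) (h6 : x.2.2 2 = y.2.2 2) :
    x = y := by
  refine Prod.ext h0 (Prod.ext ?_ ?_)
  · funext i
    fin_cases i
    · exact h1
    · exact h2
    · exact h3
  · funext i
    fin_cases i
    · exact h4
    · exact h5
    · exact h6

lemma cmul_eq (x y : Col K) : cmul x y = cmul' x y := by
  refine col_ext ?_ ?_ ?_ ?_ ?_ ?_ ?_ <;>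
    simp [cmul, cmul', dotProduct, Fin.sum_univ_three, crossProduct, Matrix.vecHead, Matrix.vecTail] <;> ring

variable (F : Type) [Field F] [Algebra F K]

/-- The colour algebra over `K`, regarded as an algebra over `F`. -/
def colour : Col K →ₗ[F] Col K →ₗ[F] Col K :=
  LinearMap.mk₂ F cmul
    (by
      intro x x' y
      refine col_ext ?_ ?_ ?_ ?_ ?_ ?_ ?_ <;> simp [cmul_eq, cmul'] <;> ring)
    (by
      intro r x y
      refine col_ext ?_ ?_ ?_ ?_ ?_ ?_ ?_ <;> simp [cmul_eq, cmul', Algebra.smul_def] <;> ring)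
    (by
      intro x y y'
      refine col_ext ?_ ?_ ?_ ?_ ?_ ?_ ?_ <;> simp [cmul_eq, cmul'] <;> ring)
    (by
      intro r x y
      refine col_ext ?_ ?_ ?_ ?_ ?_ ?_ ?_ <;> simp [cmul_eq, cmul', Algebra.smul_def] <;> ring)

lemma colour_apply (x y : Col K) : colour F x y = cmul x y := rfl

lemma flexible (x y : Col K) : assoc (colour F) x y x = 0 := by
  simp only [assoc, colour_apply]
  refine col_ext ?_ ?_ ?_ ?_ ?_ ?_ ?_ <;> simp [cmul_eq, cmul'] <;> ring

lemma jordan (x y : Col K) : assoc (colour F) (colour F x x) y x = 0 := by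
  simp only [assoc, colour_apply]
  refine col_ext ?_ ?_ ?_ ?_ ?_ ?_ ?_ <;> simp [cmul_eq, cmul'] <;> ring

lemma identity (x y : Col K) : assoc (colour F) (comm (colour F) x y) y y = 0 := by
  simp only [assoc, comm, colour_apply]
  refine col_ext ?_ ?_ ?_ ?_ ?_ ?_ ?_ <;> simp [cmul_eq, cmul'] <;> ring

/-- The anticommutator. -/
def anti (x y : Col K) : Col K := cmul x y + cmul y x

/-- The basis vectors. -/
def we (i : Fin 3) : Col K := (0, Pi.single i 1, 0)

/-- The dual basis vectors. -/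
def wf (i : Fin 3) : Col K := (0, 0, Pi.single i 1)

lemma red_b (z : Col K) (i : Fin 3) :
    anti (anti (anti z (we i)) (we 0)) (wf 0) = (8 * z.2.2 i, 0, 0) := by
  fin_cases i <;> refine col_ext ?_ ?_ ?_ ?_ ?_ ?_ ?_ <;> simp [anti, cmul_eq, cmul', we, wf] <;> ring

lemma red_a (z : Col K) (i : Fin 3) :
    anti (anti (anti z (wf i)) (wf 0)) (we 0) = (8 * z.2.1 i, 0, 0) := by
  fin_cases i <;> refine col_ext ?_ ?_ ?_ ?_ ?_ ?_ ?_ <;> simp [anti, cmul_eq, cmul', we, wf] <;> ring

lemma cmul_scal (r : K) (x : Col K) : cmul (r, 0, 0) x = r • x := by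
  refine col_ext ?_ ?_ ?_ ?_ ?_ ?_ ?_ <;> simp [cmul_eq, cmul']

lemma simple (h2 : (2 : K) ≠ 0) : IsSimple (colour F (K := K)) := by
  refine ⟨⟨we 0, we 1, fun h => ?_⟩, fun I hI => ?_⟩
  · have h1 := congrFun (congrArg (fun x : Col K => x.2.2) h) 2
    simp [colour_apply, cmul_eq, cmul', we] at h1
  · by_cases hb : I = ⊥
    · exact Or.inl hb
    right
    obtain ⟨z, hz, hz0⟩ := (Submodule.ne_bot_iff I).1 hb
    have hanti : ∀ x ∈ I, ∀ y, anti x y ∈ I := fun x hx y => I.add_mem (hI x hx y).1 (hI x hx y).2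
    have hscal : ∀ r : K, r ≠ 0 → ((r, 0, 0) : Col K) ∈ I → I = ⊤ := by
      intro r hr h
      refine (Submodule.eq_top_iff').2 fun x => ?_
      have h1 := (hI _ h (r⁻¹ • x)).1
      rw [colour_apply, cmul_scal, smul_smul, mul_inv_cancel₀ hr, one_smul] at h1
      exact h1
    have h8 : (8 : K) ≠ 0 := by
      have : (8 : K) = 2 * 2 * 2 := by norm_num
      rw [this]
      exact mul_ne_zero (mul_ne_zero h2 h2) h2
    by_cases h0 : ∃ i, z.2.2 i ≠ 0
    · obtain ⟨i, hi⟩ := h0
      refine hscal (8 * z.2.2 i) (mul_ne_zero h8 hi) ?_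
      rw [← red_b]
      exact hanti _ (hanti _ (hanti _ hz _) _) _
    by_cases h1 : ∃ i, z.2.1 i ≠ 0
    · obtain ⟨i, hi⟩ := h1
      refine hscal (8 * z.2.1 i) (mul_ne_zero h8 hi) ?_
      rw [← red_a]
      exact hanti _ (hanti _ (hanti _ hz _) _) _
    simp only [not_exists, not_not] at h0 h1
    have h3 : z = (z.1, 0, 0) := Prod.ext rfl (Prod.ext (funext h1) (funext h0))
    refine hscal z.1 (fun h => hz0 ?_) (h3 ▸ hz)
    rw [h3, h]
    rfl

lemma not_alternative (h2 : (2 : K) ≠ 0) : ¬ IsAlternative (colour F (K := K)) := by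
  intro h
  have h1 := (h (we 0 + wf 0) (we 0 - wf 0)).1
  simp only [assoc, colour_apply] at h1
  have h3 := congrFun (congrArg (fun x : Col K => x.2.1) h1) 0
  simp [cmul_eq, cmul', we, wf] at h3
  apply h2
  linear_combination (-1 : K) * h3

lemma not_jordan (h2 : (2 : K) ≠ 0) : ¬ IsJordan (colour F (K := K)) := by
  intro h
  have h1 := h.1 (we 0) (we 1)
  simp only [colour_apply] at h1
  have h3 := congrFun (congrArg (fun x : Col K => x.2.2) h1) 2
  simp [cmul_eq, cmul', we] at h3
  apply h2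
  linear_combination h3

lemma not_finite (h : ¬ Module.Finite F K) : ¬ Module.Finite F (Col K) := by
  intro h1
  exact h (Module.Finite.of_surjective (LinearMap.fst F K ((Fin 3 → K) × (Fin 3 → K))) Prod.fst_surjective)

lemma finrank_col : Module.finrank K (Col K) = 7 := by
  simp [Module.finrank_prod]

end Colour

lemma ratfunc_not_finite (F : Type) [Field F] : ¬ Module.Finite F (RatFunc F) := by
  intro h
  have h1 : Function.Injective (IsScalarTower.toAlgHom F (Polynomial F) (RatFunc F)).toLinearMap :=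
    RatFunc.algebraMap_injective F
  exact Polynomial.not_finite (R := F) (Module.Finite.of_injective _ h1)

/-- (1) Over every field `F` of characteristic not two there is a simple noncommutative Jordan algebra with
`([x, y], y, y) = 0`, infinite-dimensional over `F`, neither alternative nor a Jordan algebra. (2) In more detail: let
`K` be a field of characteristic not two and `F` a field over which `K` is an algebra (for example a subfield). The
colour algebra over `K`, of dimension seven over `K`, has all these properties as an algebra over `F` (it is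
infinite-dimensional over `F` if `K` is). -/
theorem result :
    (∀ (F : Type) [Field F], (2 : F) ≠ 0 →
      ∃ (A : Type) (_ : AddCommGroup A) (_ : Module F A) (m : A →ₗ[F] A →ₗ[F] A),
        HasProperties m ∧ ¬ Module.Finite F A) ∧
    ∀ (F K : Type) [Field F] [Field K] [Algebra F K], (2 : K) ≠ 0 →
      HasProperties (colour F (K := K)) ∧ Module.finrank K (Col K) = 7 ∧
        (¬ Module.Finite F K → ¬ Module.Finite F (Col K)) := by
  have h : ∀ (F K : Type) [Field F] [Field K] [Algebra F K], (2 : K) ≠ 0 →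
      HasProperties (colour F (K := K)) ∧ Module.finrank K (Col K) = 7 ∧
        (¬ Module.Finite F K → ¬ Module.Finite F (Col K)) := by
    intro F K _ _ _ h2
    exact ⟨⟨⟨flexible F, jordan F⟩, identity F, simple F h2, not_alternative F h2, not_jordan F h2⟩,
      finrank_col, not_finite F⟩
  refine ⟨fun F _ h2 => ?_, h⟩
  have h2' : (2 : RatFunc F) ≠ 0 := by
    intro h0
    apply h2
    have : algebraMap F (RatFunc F) 2 = algebraMap F (RatFunc F) 0 := by
      rw [map_zero, map_ofNat]
      exact h0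
    exact (algebraMap F (RatFunc F)).injective this
  obtain ⟨h3, -, h9⟩ := h F (RatFunc F) h2'
  exact ⟨Col (RatFunc F), inferInstance, inferInstance, colour F, h3, h9 (ratfunc_not_finite F)⟩

end Pool.Agent.Results.MP_52e257_al.ColourAlgebra
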